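import Pool.Agent.X179.ID.Univ

namespace Pool.Agent.X179.ID

open Filter Topology Pool.Agent.X179.SP

set_option synthInstance.maxHeartbeats 400000
set_option maxHeartbeats 4000000

/-- Separation of a point from a subspace. -/
lemma separate {V : Type} [NormedAddCommGroup V] [NormedSpace ℂ V] (W : Submodule ℂ V) (v : V)
    {ε : ℝ} (hε : 0 < ε) (h : ∀ w ∈ W, ε ≤ ‖v - w‖) :
    ∃ f : V →L[ℂ] ℂ, (∀ w ∈ W, f w = 0) ∧ f v ≠ 0 := by
  have hv : v ∉ W.topologicalClosure := by
    intro hv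
    have h1 : v ∈ closure (W : Set V) := hv
    rw [Metric.mem_closure_iff] at h1
    obtain ⟨w, hw, hd⟩ := h1 ε hε
    rw [dist_eq_norm] at hd
    exact absurd (h w hw) (not_le.2 hd)
  haveI hcl : IsClosed (W.topologicalClosure : Set V) := W.isClosed_topologicalClosure
  have hq : (W.topologicalClosure.mkQ v) ≠ 0 := by
    rw [Submodule.mkQ_apply, Ne, Submodule.Quotient.mk_eq_zero]
    exact hv
  have hq' : ‖W.topologicalClosure.mkQ v‖ ≠ 0 := norm_ne_zero_iff.2 hq
  obtain ⟨g, -, hg⟩ := exists_dual_vector ℂ (W.topologicalClosure.mkQ v) hq'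
  refine ⟨g.comp (W.topologicalClosure.mkQL), fun w hw => ?_, ?_⟩
  · have h2 : W.topologicalClosure.mkQL w = 0 := by
      change Submodule.Quotient.mk w = _
      rw [Submodule.Quotient.mk_eq_zero]
      exact W.le_topologicalClosure hw
    rw [ContinuousLinearMap.comp_apply, h2, map_zero]
  · rw [ContinuousLinearMap.comp_apply]
    change g (W.topologicalClosure.mkQ v) ≠ 0
    rw [hg]
    exact Complex.ofReal_ne_zero.2 hq'

section Setup

variable {A : Type} [NonUnitalNormedRing A] [NormedSpace ℂ A] [IsScalarTower ℂ A A]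
  [SMulCommClass ℂ A A]
variable {J : Type} [NonUnitalNormedRing J] [NormedSpace ℂ J] [IsScalarTower ℂ J J]
  [SMulCommClass ℂ J J]

/-- `J` is (through `i`) a complemented ideal of `A`, `μ a s = a s`, `ν a s = s a`, `P` a
projection onto `J`. -/
structure Cpl (A J : Type) [NonUnitalNormedRing A] [NormedSpace ℂ A]
    [NonUnitalNormedRing J] [NormedSpace ℂ J] where
  i : J →L[ℂ] A
  im : ∀ s t, i (s * t) = i s * i t
  μ : A →L[ℂ] J →L[ℂ] J
  hμ : ∀ a s, i (μ a s) = a * i s
  ν : A →L[ℂ] J →L[ℂ] J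
  hν : ∀ a s, i (ν a s) = i s * a
  P : A →L[ℂ] J
  hP : ∀ s, P (i s) = s

namespace Cpl

variable (c : Cpl A J)

lemma inj {s t : J} (h : c.i s = c.i t) : s = t := by
  rw [← c.hP s, h, c.hP]

noncomputable def Q : A →L[ℂ] A := ContinuousLinearMap.id ℂ A - c.i ∘L c.P

lemma Q_apply (x : A) : c.Q x = x - c.i (c.P x) := rfl

lemma Q_i (s : J) : c.Q (c.i s) = 0 := by rw [Q_apply, c.hP, sub_self]

lemma μ_mul (x y : A) (s : J) : c.μ (x * y) s = c.μ x (c.μ y s) := by
  apply c.inj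
  rw [c.hμ, c.hμ, c.hμ, mul_assoc]

lemma μ_i (s t : J) : c.μ (c.i s) t = s * t := by
  apply c.inj
  rw [c.hμ, c.im]

lemma P_mul_i (x : A) (s : J) : c.P (x * c.i s) = c.μ x s := by
  rw [← c.hμ, c.hP]

lemma P_i_mul (x : A) (s : J) : c.P (c.i s * x) = c.ν x s := by
  rw [← c.hν, c.hP]

lemma Q_i_mul (x : A) (s : J) : c.Q (c.i s * x) = 0 := by
  rw [← c.hν, c.Q_i]

lemma μ_i_mul (s : J) (x : A) (t : J) : c.μ (c.i s * x) t = s * c.μ x t := by
  rw [c.μ_mul, c.μ_i]

lemma μ_split (x : A) (s : J) : c.μ x s = c.P x * s + c.μ (c.Q x) s := by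
  rw [c.Q_apply, map_sub, sub_apply, c.μ_i]
  abel

lemma μ_assoc (x : A) (s t : J) : c.μ x s * t = c.μ x (s * t) := by
  apply c.inj
  rw [c.im, c.hμ, c.hμ, c.im, mul_assoc]

lemma ν_assoc (x : A) (s t : J) : s * c.ν x t = c.ν x (s * t) := by
  apply c.inj
  rw [c.im, c.hν, c.hν, c.im, mul_assoc]

/-- The bilinear form `(x, y) ↦ φ((u x)(P y))`. -/
noncomputable def bil (φ : J →L[ℂ] ℂ) (u : A →L[ℂ] A) : A →L[ℂ] A →L[ℂ] ℂ :=
  ((ContinuousLinearMap.compL ℂ A J ℂ).flip c.P) ∘L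
    ((ContinuousLinearMap.compL ℂ J J ℂ φ) ∘L (c.μ ∘L u))

lemma bil_apply (φ : J →L[ℂ] ℂ) (u : A →L[ℂ] A) (x y : A) :
    c.bil φ u x y = φ (c.μ (u x) (c.P y)) := rfl

end Cpl

lemma sum_rF {S : Type} (F : Finset S) (s : S → A) (G : S → XO A) (x : A) :
    p1 (∑ k ∈ F, rF (s k) (G k)) x = ∑ k ∈ F, p2 (G k) (s k) x := by
  induction F using Finset.cons_induction with
  | empty => rfl
  | cons a F ha ih => rw [Finset.sum_cons, Finset.sum_cons, p1_add, ih, rF1]

lemma p1_sum {S : Type} (F : Finset S) (G : S → XO A) (x : A) :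
    p1 (∑ k ∈ F, G k) x = ∑ k ∈ F, p1 (G k) x := by
  induction F using Finset.cons_induction with
  | empty => rfl
  | cons a F ha ih => rw [Finset.sum_cons, Finset.sum_cons, p1_add, ih]

lemma p2_sum {S : Type} (F : Finset S) (G : S → XO A) (x y : A) :
    p2 (∑ k ∈ F, G k) x y = ∑ k ∈ F, p2 (G k) x y := by
  induction F using Finset.cons_induction with
  | empty => rfl
  | cons a F ha ih => rw [Finset.sum_cons, Finset.sum_cons, p2_add, ih]

/-- Abstract duality argument. -/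
lemma dual_arg (hA : ApproxSemiAmenable A) (c : Cpl A J) (T : Finset J) {ε : ℝ} (hε : 0 < ε)
    (m : J →ₗ[ℂ] J →ₗ[ℂ] J)
    (G : (J →L[ℂ] ℂ) → XO A) (hG : ∀ φ s, p1 (G φ) (c.i s) = φ s)
    (hz : ∀ φ : T → (J →L[ℂ] ℂ), (∀ e : J, ∑ s, φ s (m e s.1) = 0) →
      ∑ s : T, rF (c.i s.1) (G (φ s)) = 0 ∧ ∑ s : T, lF (c.i s.1) (G (φ s)) = 0) :
    ∃ e : J, ∀ s ∈ T, ‖s - m e s‖ < ε := by
  classical
  by_contra hcon
  push Not at hcon
  let L : J →ₗ[ℂ] (T → J) :=
    { toFun := fun e s => m e s.1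
      map_add' := fun a b => by
        funext s
        simp
      map_smul' := fun a b => by
        funext s
        simp }
  obtain ⟨f, hf1, hf2⟩ := separate (LinearMap.range L) (fun s : T => s.1) hε (by
    rintro w ⟨e, rfl⟩
    obtain ⟨s, hs, hse⟩ := hcon e
    refine hse.trans ?_
    have := norm_le_pi_norm ((fun s : T => s.1) - L e) ⟨s, hs⟩
    exact this)
  let φ : T → (J →L[ℂ] ℂ) := fun s => f ∘L (ContinuousLinearMap.single ℂ (fun _ : T => J) s)
  have hφ : ∀ v : T → J, f v = ∑ s, φ s (v s) := by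
    intro v
    conv_lhs => rw [← Finset.univ_sum_single v]
    rw [map_sum]
    rfl
  obtain ⟨hz1, hz2⟩ := hz φ (fun e => by
    have h0 := hf1 (L e) ⟨e, rfl⟩
    rw [hφ] at h0
    exact h0)
  rw [hφ] at hf2
  set N : ℝ := ‖∑ s : T, φ s s.1‖ with hN
  have hN0 : 0 < N := norm_pos_iff.2 hf2
  set S : ℝ := ∑ s : T, ‖G (φ s)‖ with hS
  have hS0 : 0 ≤ S := Finset.sum_nonneg fun _ _ => norm_nonneg _
  obtain ⟨ω, ω', hω⟩ := approx hA (T.image c.i) (N / (2 * (S + 1))) (by positivity)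
  have h1 : ∀ s : T, ‖ω (rF (c.i s.1) (G (φ s))) - ω' (lF (c.i s.1) (G (φ s))) - φ s s.1‖ ≤
      N / (2 * (S + 1)) * ‖G (φ s)‖ := by
    intro s
    have := hω (c.i s.1) (Finset.mem_image_of_mem _ s.2) (G (φ s))
    rwa [hG] at this
  have h2 : ‖∑ s : T, (ω (rF (c.i s.1) (G (φ s))) - ω' (lF (c.i s.1) (G (φ s))) - φ s s.1)‖ ≤
      N / (2 * (S + 1)) * S := by
    refine (norm_sum_le _ _).trans ?_
    rw [hS, Finset.mul_sum]
    exact Finset.sum_le_sum fun s _ => h1 s
  rw [Finset.sum_sub_distrib, Finset.sum_sub_distrib, ← map_sum, ← map_sum, hz1, hz2, map_zero,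
    map_zero, sub_zero, zero_sub, norm_neg, ← hN] at h2
  have h3 : N / (2 * (S + 1)) * S < N := by
    rw [div_mul_eq_mul_div, div_lt_iff₀ (by positivity)]
    nlinarith
  linarith

lemma rai (hA : ApproxSemiAmenable A) (c : Cpl A J) (T : Finset J) {ε : ℝ} (hε : 0 < ε) :
    ∃ e : J, ∀ s ∈ T, ‖s - s * e‖ < ε := by
  have := dual_arg hA c T hε (LinearMap.mul ℂ J).flip
    (fun φ => mkXO (φ ∘L c.P) (c.bil φ (ContinuousLinearMap.id ℂ A)))
    (fun φ s => by rw [p1_mk, ContinuousLinearMap.comp_apply, c.hP]) (fun φ hφ => by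
      simp only [LinearMap.flip_apply, LinearMap.mul_apply'] at hφ
      constructor
      · refine xo_ext (fun x => ?_) (fun x y => ?_)
        · rw [p1_sum]
          refine (Finset.sum_congr rfl fun s _ => ?_).trans (hφ (c.P x))
          rw [rF1, p2_mk, c.bil_apply, ContinuousLinearMap.id_apply, c.μ_i]
        · rw [p2_sum]
          refine (Finset.sum_congr rfl fun s _ => ?_).trans (hφ (c.μ x (c.P y)))
          rw [rF2, p2_mk, c.bil_apply, ContinuousLinearMap.id_apply, c.μ_i_mul]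
      · refine Finset.sum_eq_zero fun s _ => xo_ext (fun x => ?_) (fun x y => ?_)
        · rw [lF1, p2_mk, p1_mk, c.bil_apply, ContinuousLinearMap.id_apply,
            ContinuousLinearMap.comp_apply, c.P_mul_i, c.hP, sub_self]
          rfl
        · rw [lF2, p2_mk, p2_mk, c.bil_apply, c.bil_apply, ContinuousLinearMap.id_apply,
            ContinuousLinearMap.id_apply, c.P_mul_i, c.hP, c.μ_mul, sub_self]
          rfl)
  simpa using this

lemma lai (hA : ApproxSemiAmenable A) (c : Cpl A J) (T : Finset J) {ε : ℝ} (hε : 0 < ε) :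
    ∃ e : J, ∀ s ∈ T, ‖s - e * s‖ < ε := by
  have := dual_arg hA c T hε (LinearMap.mul ℂ J)
    (fun φ => mkXO (φ ∘L c.P) (c.bil φ c.Q))
    (fun φ s => by rw [p1_mk, ContinuousLinearMap.comp_apply, c.hP]) (fun φ hφ => by
      simp only [LinearMap.mul_apply'] at hφ
      constructor
      · refine Finset.sum_eq_zero fun s _ => xo_ext (fun x => ?_) (fun x y => ?_)
        · rw [rF1, p2_mk, c.bil_apply, c.Q_i, map_zero]
          change φ s 0 = 0
          rw [map_zero]
        · rw [rF2, p2_mk, c.bil_apply, c.Q_i_mul, map_zero]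
          change φ s 0 = 0
          rw [map_zero]
      · refine xo_ext (fun x => ?_) (fun x y => ?_)
        · rw [p1_sum]
          refine (Finset.sum_congr rfl fun s _ => ?_).trans (hφ (c.P x))
          rw [lF1, p2_mk, p1_mk, c.bil_apply, ContinuousLinearMap.comp_apply, c.P_mul_i, c.hP,
            ← map_sub, c.μ_split x s.1, add_sub_cancel_right]
        · rw [p2_sum]
          refine (Finset.sum_congr rfl fun s _ => ?_).trans (hφ (c.P (x * y) - c.ν y (c.P x)))
          rw [lF2, p2_mk, p2_mk, c.bil_apply, c.bil_apply, c.P_mul_i, c.hP, ← map_sub]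
          congr 1
          rw [sub_mul]
          have h1 := c.μ_split (x * y) s.1
          have h2 := c.μ_split x (c.μ y s.1)
          rw [c.μ_mul] at h1
          have h3 : c.P x * c.μ y s.1 = c.ν y (c.P x) * s.1 := by
            apply c.inj
            rw [c.im, c.im, c.hμ, c.hν, mul_assoc]
          rw [h3] at h2
          rw [eq_sub_iff_add_eq.2 (show c.μ (c.Q x) (c.μ y s.1) + c.ν y (c.P x) * s.1 =
            c.μ x (c.μ y s.1) by rw [h2, add_comm])]
          rw [eq_sub_iff_add_eq.2 (show c.μ (c.Q (x * y)) s.1 + c.P (x * y) * s.1 =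
            c.μ x (c.μ y s.1) by rw [h1, add_comm])]
          abel)
  simpa using this

end Setup

end Pool.Agent.X179.ID
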