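import Pool.Agent.X179.ID.AI

namespace Pool.Agent.X179.ID

open Filter Topology Pool.Agent.X179.SP

set_option synthInstance.maxHeartbeats 400000
set_option maxHeartbeats 4000000

variable {A : Type} [NonUnitalNormedRing A] [NormedSpace ℂ A] [IsScalarTower ℂ A A]
  [SMulCommClass ℂ A A]
variable {J : Type} [NonUnitalNormedRing J] [NormedSpace ℂ J] [IsScalarTower ℂ J J]
  [SMulCommClass ℂ J J]
variable {X : Type} [NormedAddCommGroup X] [NormedSpace ℂ X]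

/-- Construction of bounded linear maps into `XO A`. -/
lemma exists_L (a0 : X → A → ℂ) (t : X → A → A → ℂ) (C : ℝ) (hC : 0 ≤ C)
    (a1 : ∀ f g x, a0 (f + g) x = a0 f x + a0 g x)
    (a2 : ∀ (c : ℂ) f x, a0 (c • f) x = c * a0 f x)
    (a3 : ∀ f x y, a0 f (x + y) = a0 f x + a0 f y)
    (a4 : ∀ f (c : ℂ) x, a0 f (c • x) = c * a0 f x)
    (a5 : ∀ f x, ‖a0 f x‖ ≤ C * ‖f‖ * ‖x‖)
    (t1 : ∀ f g x y, t (f + g) x y = t f x y + t g x y)
    (t2 : ∀ (c : ℂ) f x y, t (c • f) x y = c * t f x y)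
    (t3 : ∀ f x x' y, t f (x + x') y = t f x y + t f x' y)
    (t4 : ∀ f (c : ℂ) x y, t f (c • x) y = c * t f x y)
    (t5 : ∀ f x y y', t f x (y + y') = t f x y + t f x y')
    (t6 : ∀ f (c : ℂ) x y, t f x (c • y) = c * t f x y)
    (t7 : ∀ f x y, ‖t f x y‖ ≤ C * ‖f‖ * ‖x‖ * ‖y‖) :
    ∃ L : X →L[ℂ] XO A, (∀ f x, p1 (L f) x = a0 f x) ∧ (∀ f x y, p2 (L f) x y = t f x y) ∧
      ∀ f, ‖L f‖ ≤ C * ‖f‖ := by
  let g : X → XO A := fun f => mkXO
    (LinearMap.mkContinuous { toFun := a0 f, map_add' := a3 f, map_smul' := a4 f } (C * ‖f‖) (a5 f))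
    (LinearMap.mkContinuous₂ (LinearMap.mk₂ ℂ (t f) (t3 f) (t4 f) (t5 f)
      (fun c x y => t6 f c x y)) (C * ‖f‖) (t7 f))
  have g1 : ∀ f x, p1 (g f) x = a0 f x := fun _ _ => rfl
  have g2 : ∀ f x y, p2 (g f) x y = t f x y := fun _ _ _ => rfl
  have gn : ∀ f, ‖g f‖ ≤ C * ‖f‖ := fun f =>
    xo_norm (by positivity) (fun x => by rw [g1]; exact a5 f x)
      (fun x y => by rw [g2]; exact t7 f x y)
  refine ⟨LinearMap.mkContinuous
    { toFun := g
      map_add' := fun f f' => xo_ext (fun x => by rw [g1, p1_add, g1, g1, a1])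
        (fun x y => by rw [g2, p2_add, g2, g2, t1])
      map_smul' := fun c f => xo_ext (fun x => by
          rw [g1, RingHom.id_apply, p1_smul, g1, a2])
        (fun x y => by rw [g2, RingHom.id_apply, p2_smul, g2, t2]) } C gn, g1, g2, gn⟩

lemma b3 (D : J →L[ℂ] (X →L[ℂ] ℂ)) (R : J →L[ℂ] X →L[ℂ] X) (s t : J) (f : X) :
    ‖D s (R t f)‖ ≤ ‖D‖ * ‖R‖ * ‖s‖ * ‖t‖ * ‖f‖ := by
  have h1 := D.le_opNorm₂ s (R t f)
  have h2 := R.le_opNorm₂ t f
  have hD0 : 0 ≤ ‖D‖ := D.opNorm_nonneg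
  calc ‖D s (R t f)‖ ≤ ‖D‖ * ‖s‖ * ‖R t f‖ := h1
    _ ≤ ‖D‖ * ‖s‖ * (‖R‖ * ‖t‖ * ‖f‖) :=
        mul_le_mul_of_nonneg_left h2 (mul_nonneg hD0 (norm_nonneg _))
    _ = _ := by ring

theorem main_est (hA : ApproxSemiAmenable A) (c : Cpl A J) (M : Bimod J X)
    (D : J →L[ℂ] (X →L[ℂ] ℂ)) (hD : IsDerivation M.dual D) (T : Finset J) {ε : ℝ} (hε : 0 < ε) :
    ∃ Ξ H : X →L[ℂ] ℂ, ∀ s ∈ T, ‖M.dual.left s Ξ - M.dual.right s H - D s‖ ≤ ε := by
  classical
  have hder : ∀ (s t : J) (f : X), D (s * t) f = D t (M.right s f) + D s (M.left t f) := by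
    intro s t f
    rw [hD s t, add_apply, dual_left, dual_right]
  have hD0 : 0 ≤ ‖D‖ := D.opNorm_nonneg
  have hR0 : 0 ≤ ‖M.right‖ := M.right.opNorm_nonneg
  have hL0 : 0 ≤ ‖M.left‖ := M.left.opNorm_nonneg
  have hP0 : 0 ≤ ‖c.P‖ := c.P.opNorm_nonneg
  have hμ0 : 0 ≤ ‖c.μ‖ := c.μ.opNorm_nonneg
  have hν0 : 0 ≤ ‖c.ν‖ := c.ν.opNorm_nonneg
  have hQ0 : 0 ≤ ‖c.Q‖ := c.Q.opNorm_nonneg
  have nP : ∀ x, ‖c.P x‖ ≤ ‖c.P‖ * ‖x‖ := fun x => c.P.le_opNorm x
  -- bounds for the pieces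
  have q0 : ∀ (f : X) (x : A), ‖D (c.P x) f‖ ≤ ‖D‖ * ‖c.P‖ * ‖f‖ * ‖x‖ := by
    intro f x
    refine (D.le_opNorm₂ _ _).trans ?_
    have := mul_le_mul_of_nonneg_right (mul_le_mul_of_nonneg_left (nP x) hD0) (norm_nonneg f)
    refine this.trans (le_of_eq (by ring))
  have q1 : ∀ (f : X) (x y : A) (e : J), ‖D (c.P y) (M.right (c.ν x e) f)‖ ≤
      ‖D‖ * ‖M.right‖ * ‖c.P‖ * ‖c.ν‖ * ‖e‖ * ‖f‖ * ‖x‖ * ‖y‖ := by
    intro f x y e
    refine (b3 D M.right _ _ _).trans ?_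
    have h1 := c.ν.le_opNorm₂ x e
    have h2 : ‖D‖ * ‖M.right‖ * ‖c.P y‖ * ‖c.ν x e‖ * ‖f‖ ≤
        ‖D‖ * ‖M.right‖ * (‖c.P‖ * ‖y‖) * (‖c.ν‖ * ‖x‖ * ‖e‖) * ‖f‖ := by
      have := mul_le_mul (nP y) h1 (norm_nonneg _) (by positivity)
      have h3 := mul_le_mul_of_nonneg_left this (mul_nonneg hD0 hR0)
      have h4 := mul_le_mul_of_nonneg_right h3 (norm_nonneg f)
      refine (le_of_eq (by ring)).trans (h4.trans (le_of_eq (by ring)))
    exact h2.trans (le_of_eq (by ring))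
  have q2 : ∀ (f : X) (x y : A) (l : J), ‖D (c.P x) (M.left (c.μ y l) f)‖ ≤
      ‖D‖ * ‖M.left‖ * ‖c.P‖ * ‖c.μ‖ * ‖l‖ * ‖f‖ * ‖x‖ * ‖y‖ := by
    intro f x y l
    refine (b3 D M.left _ _ _).trans ?_
    have h1 := c.μ.le_opNorm₂ y l
    have h2 : ‖D‖ * ‖M.left‖ * ‖c.P x‖ * ‖c.μ y l‖ * ‖f‖ ≤
        ‖D‖ * ‖M.left‖ * (‖c.P‖ * ‖x‖) * (‖c.μ‖ * ‖y‖ * ‖l‖) * ‖f‖ := by
      have := mul_le_mul (nP x) h1 (norm_nonneg _) (by positivity)
      have h3 := mul_le_mul_of_nonneg_left this (mul_nonneg hD0 hL0)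
      have h4 := mul_le_mul_of_nonneg_right h3 (norm_nonneg f)
      refine (le_of_eq (by ring)).trans (h4.trans (le_of_eq (by ring)))
    exact h2.trans (le_of_eq (by ring))
  have q3 : ∀ (f : X) (x y : A), ‖D (c.P (x * y)) f‖ ≤ ‖D‖ * ‖c.P‖ * ‖f‖ * ‖x‖ * ‖y‖ := by
    intro f x y
    refine (q0 f (x * y)).trans ?_
    have := mul_le_mul_of_nonneg_left (norm_mul_le x y)
      (show 0 ≤ ‖D‖ * ‖c.P‖ * ‖f‖ from mul_nonneg (mul_nonneg hD0 hP0) (norm_nonneg f))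
    refine this.trans (le_of_eq (by ring))
  have q4 : ∀ (f : X) (x y : A), ‖D (c.P y) (M.right (c.P x) f)‖ ≤
      ‖D‖ * ‖M.right‖ * ‖c.P‖ * ‖c.P‖ * ‖f‖ * ‖x‖ * ‖y‖ := by
    intro f x y
    refine (b3 D M.right _ _ _).trans ?_
    have := mul_le_mul (nP y) (nP x) (norm_nonneg _) (by positivity)
    have h3 := mul_le_mul_of_nonneg_left this (mul_nonneg hD0 hR0)
    have h4 := mul_le_mul_of_nonneg_right h3 (norm_nonneg f)
    refine (le_of_eq (by ring)).trans (h4.trans (le_of_eq (by ring)))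
  have q5 : ∀ (f : X) (x y : A), ‖D (c.μ (c.Q x) (c.P y)) f‖ ≤
      ‖D‖ * ‖c.μ‖ * ‖c.Q‖ * ‖c.P‖ * ‖f‖ * ‖x‖ * ‖y‖ := by
    intro f x y
    refine (D.le_opNorm₂ _ _).trans ?_
    have h1 : ‖c.μ (c.Q x) (c.P y)‖ ≤ ‖c.μ‖ * (‖c.Q‖ * ‖x‖) * (‖c.P‖ * ‖y‖) := by
      refine (c.μ.le_opNorm₂ _ _).trans ?_
      exact mul_le_mul (mul_le_mul_of_nonneg_left (c.Q.le_opNorm x) hμ0) (nP y) (norm_nonneg _)
        (by positivity)
    have h3 := mul_le_mul_of_nonneg_right (mul_le_mul_of_nonneg_left h1 hD0) (norm_nonneg f)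
    exact h3.trans (le_of_eq (by ring))
  -- the test map
  set C3 : ℝ := ‖D‖ * ‖c.P‖ + ‖D‖ * ‖M.right‖ * ‖c.P‖ * ‖c.P‖ + ‖D‖ * ‖c.μ‖ * ‖c.Q‖ * ‖c.P‖ with hC3
  have hC30 : 0 ≤ C3 := by positivity
  obtain ⟨L3, h31, h32, h33⟩ := exists_L (A := A) (X := X) (fun f x => D (c.P x) f)
    (fun f x y => D (c.P y) (M.right (c.P x) f) + D (c.μ (c.Q x) (c.P y)) f) C3 hC30
    (fun f g x => by simp only [map_add])
    (fun r f x => by simp only [map_smul, smul_eq_mul])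
    (fun f x y => by simp only [map_add, add_apply])
    (fun f r x => by simp only [map_smul, smul_apply, smul_eq_mul])
    (fun f x => by
      refine (q0 f x).trans ?_
      have h0 : 0 ≤ ‖D‖ * ‖M.right‖ * ‖c.P‖ * ‖c.P‖ + ‖D‖ * ‖c.μ‖ * ‖c.Q‖ * ‖c.P‖ := by positivity
      have h1 : 0 ≤ ‖f‖ * ‖x‖ := by positivity
      rw [hC3]
      nlinarith [mul_nonneg h0 h1])
    (fun f g x y => by simp only [map_add]; ring)
    (fun r f x y => by simp only [map_smul, smul_eq_mul]; ring)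
    (fun f x x' y => by simp only [map_add, add_apply]; ring)
    (fun f r x y => by simp only [map_smul, smul_apply, smul_eq_mul]; ring)
    (fun f x y y' => by simp only [map_add, add_apply]; ring)
    (fun f r x y => by simp only [map_smul, smul_apply, smul_eq_mul]; ring)
    (fun f x y => by
      refine (norm_add_le _ _).trans ((add_le_add (q4 f x y) (q5 f x y)).trans ?_)
      have h1 : 0 ≤ ‖D‖ * ‖c.P‖ * (‖f‖ * ‖x‖ * ‖y‖) := by positivity
      rw [hC3]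
      nlinarith [h1])
  obtain ⟨ω, ω', hω⟩ := approx hA (T.image c.i) (ε / (3 * (C3 + 1))) (by positivity)
  have hω0 : 0 ≤ ‖ω‖ := ω.opNorm_nonneg
  have hω'0 : 0 ≤ ‖ω'‖ := ω'.opNorm_nonneg
  set C4 : ℝ := ‖D‖ * ‖M.right‖ * ‖c.P‖ * ‖c.ν‖ with hC4
  set C5 : ℝ := ‖D‖ * ‖M.left‖ * ‖c.P‖ * ‖c.μ‖ with hC5
  have hC40 : 0 ≤ C4 := by positivity
  have hC50 : 0 ≤ C5 := by positivity
  obtain ⟨e, he⟩ := rai hA c T (ε := ε / (3 * (‖ω‖ * C4 + 1))) (by positivity)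
  obtain ⟨l, hl⟩ := lai hA c T (ε := ε / (3 * (‖ω'‖ * C5 + 1))) (by positivity)
  obtain ⟨L1, h11, h12, -⟩ := exists_L (A := A) (X := X) (fun f x => D (c.P x) f)
    (fun f x y => D (c.P y) (M.right (c.ν x e) f)) (‖D‖ * ‖c.P‖ + C4 * ‖e‖) (by positivity)
    (fun f g x => by simp only [map_add])
    (fun r f x => by simp only [map_smul, smul_eq_mul])
    (fun f x y => by simp only [map_add, add_apply])
    (fun f r x => by simp only [map_smul, smul_apply, smul_eq_mul])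
    (fun f x => by
      refine (q0 f x).trans ?_
      have h1 : 0 ≤ C4 * ‖e‖ * (‖f‖ * ‖x‖) := by positivity
      nlinarith [h1])
    (fun f g x y => by simp only [map_add])
    (fun r f x y => by simp only [map_smul, smul_eq_mul])
    (fun f x x' y => by simp only [map_add, add_apply])
    (fun f r x y => by simp only [map_smul, smul_apply, smul_eq_mul])
    (fun f x y y' => by simp only [map_add, add_apply])
    (fun f r x y => by simp only [map_smul, smul_apply, smul_eq_mul])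
    (fun f x y => by
      refine (q1 f x y e).trans ?_
      have h1 : 0 ≤ ‖D‖ * ‖c.P‖ * (‖f‖ * ‖x‖ * ‖y‖) := by positivity
      rw [hC4]
      nlinarith [h1])
  obtain ⟨L2, h21, h22, -⟩ := exists_L (A := A) (X := X) (fun f x => D (c.P x) f)
    (fun f x y => D (c.P (x * y)) f - D (c.P x) (M.left (c.μ y l) f))
    (‖D‖ * ‖c.P‖ + C5 * ‖l‖) (by positivity)
    (fun f g x => by simp only [map_add])
    (fun r f x => by simp only [map_smul, smul_eq_mul])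
    (fun f x y => by simp only [map_add, add_apply])
    (fun f r x => by simp only [map_smul, smul_apply, smul_eq_mul])
    (fun f x => by
      refine (q0 f x).trans ?_
      have h1 : 0 ≤ C5 * ‖l‖ * (‖f‖ * ‖x‖) := by positivity
      nlinarith [h1])
    (fun f g x y => by simp only [map_add]; ring)
    (fun r f x y => by simp only [map_smul, smul_eq_mul]; ring)
    (fun f x x' y => by simp only [add_mul, map_add, add_apply]; ring)
    (fun f r x y => by simp only [smul_mul_assoc, map_smul, smul_apply, smul_eq_mul]; ring)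
    (fun f x y y' => by simp only [mul_add, map_add, add_apply]; ring)
    (fun f r x y => by simp only [mul_smul_comm, map_smul, smul_apply, smul_eq_mul]; ring)
    (fun f x y => by
      refine (norm_sub_le _ _).trans ((add_le_add (q3 f x y) (q2 f x y l)).trans ?_)
      rw [hC5]
      exact le_of_eq (by ring))
  refine ⟨ω ∘L L1, ω' ∘L L2, fun s hs => ?_⟩
  refine ContinuousLinearMap.opNorm_le_bound _ hε.le fun f => ?_
  rw [sub_apply, sub_apply, dual_left, dual_right, ContinuousLinearMap.comp_apply,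
    ContinuousLinearMap.comp_apply]
  -- comparison 1
  have k1 : ‖L1 (M.right s f) - rF (c.i s) (L3 f)‖ ≤ C4 * ‖s - s * e‖ * ‖f‖ := by
    have e0 : L1 (M.right s f) - rF (c.i s) (L3 f) = L1 (M.right s f) + (-1 : ℂ) • rF (c.i s) (L3 f) := by
      rw [neg_one_smul, sub_eq_add_neg]
    rw [e0]
    refine xo_norm (by positivity) (fun y => ?_) (fun x y => ?_)
    · rw [p1_add, p1_smul, h11, rF1, h32, c.hP, c.Q_i]
      have : (c.μ 0) (c.P y) = 0 := by simp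
      rw [this]
      simp
      positivity
    · rw [p2_add, p2_smul, h12, rF2, h32, c.P_i_mul, c.Q_i_mul, ← M.right_mul, c.ν_assoc]
      have h0 : (c.μ 0) (c.P y) = 0 := by simp
      have h1 : D (c.P y) (M.right (c.ν x (s * e)) f) + -1 * (D (c.P y) (M.right (c.ν x s) f) +
          D ((c.μ 0) (c.P y)) f) = - D (c.P y) (M.right (c.ν x (s - s * e)) f) := by
        rw [h0]
        simp only [map_sub, map_zero, sub_apply, zero_apply]
        ring
      rw [h1, norm_neg]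
      refine (q1 f x y (s - s * e)).trans (le_of_eq ?_)
      rw [hC4]
  -- comparison 2
  have k2 : ‖L2 (M.left s f) - lF (c.i s) (L3 f)‖ ≤ C5 * ‖s - l * s‖ * ‖f‖ := by
    have e0 : L2 (M.left s f) - lF (c.i s) (L3 f) = L2 (M.left s f) + (-1 : ℂ) • lF (c.i s) (L3 f) := by
      rw [neg_one_smul, sub_eq_add_neg]
    rw [e0]
    refine xo_norm (by positivity) (fun y => ?_) (fun x y => ?_)
    · rw [p1_add, p1_smul, h21, lF1, h31, h32, c.hP, c.P_mul_i]
      have h1 := hder (c.P y) s f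
      have h2 := c.μ_split y s
      have h3 : D (c.μ y s) f = D (c.P y * s) f + D (c.μ (c.Q y) s) f := by
        rw [← add_apply, ← map_add, ← h2]
      rw [h3, h1]
      have h4 : D (c.P y) (M.left s f) + -1 * (D s (M.right (c.P y) f) + D (c.P y) (M.left s f) +
          D (c.μ (c.Q y) s) f - (D s (M.right (c.P y) f) + D (c.μ (c.Q y) s) f)) = 0 := by ring
      rw [h4, norm_zero]
      positivity
    · rw [p2_add, p2_smul, h22, lF2, h32, h32, c.hP, c.P_mul_i, ← M.left_mul, c.μ_assoc]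
      have a1 := hder (c.P (x * y)) s f
      have a2 := hder (c.P x) (c.μ y s) f
      have a3 : D (c.P (x * y) * s) f + D (c.μ (c.Q (x * y)) s) f =
          D (c.P x * c.μ y s) f + D (c.μ (c.Q x) (c.μ y s)) f := by
        rw [← add_apply, ← map_add, ← add_apply, ← map_add, ← c.μ_split, ← c.μ_split, c.μ_mul]
      have a4 : D (c.P x) (M.left (c.μ y (s - l * s)) f) =
          D (c.P x) (M.left (c.μ y s) f) - D (c.P x) (M.left (c.μ y (l * s)) f) := by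
        simp only [map_sub, sub_apply]
      have a5 : D (c.P (x * y)) (M.left s f) - D (c.P x) (M.left (c.μ y (l * s)) f) +
          -1 * (D (c.μ y s) (M.right (c.P x) f) + D (c.μ (c.Q x) (c.μ y s)) f -
          (D s (M.right (c.P (x * y)) f) + D (c.μ (c.Q (x * y)) s) f)) =
          D (c.P x) (M.left (c.μ y (s - l * s)) f) := by
        rw [a4]
        linear_combination -a1 + a2 + a3
      rw [a5]
      refine (q2 f x y (s - l * s)).trans (le_of_eq ?_)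
      rw [hC5]
  -- main relation
  have k3 := hω (c.i s) (Finset.mem_image_of_mem _ hs) (L3 f)
  rw [h31, c.hP] at k3
  have k4 : ‖ω (rF (c.i s) (L3 f)) - ω' (lF (c.i s) (L3 f)) - D s f‖ ≤ ε / 3 * ‖f‖ := by
    refine k3.trans ?_
    have h1 : ε / (3 * (C3 + 1)) * ‖L3 f‖ ≤ ε / (3 * (C3 + 1)) * (C3 * ‖f‖) :=
      mul_le_mul_of_nonneg_left (h33 f) (by positivity)
    refine h1.trans ?_
    have h2 : ε / (3 * (C3 + 1)) * C3 ≤ ε / 3 := by
      rw [div_mul_eq_mul_div, div_le_div_iff₀ (by positivity) (by norm_num)]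
      nlinarith
    calc ε / (3 * (C3 + 1)) * (C3 * ‖f‖) = (ε / (3 * (C3 + 1)) * C3) * ‖f‖ := by ring
      _ ≤ ε / 3 * ‖f‖ := mul_le_mul_of_nonneg_right h2 (norm_nonneg _)
  have small : ∀ (W K a : ℝ), 0 ≤ W → 0 ≤ K → a < ε / (3 * (W * K + 1)) → 0 ≤ a →
      W * (K * a * ‖f‖) ≤ ε / 3 * ‖f‖ := by
    intro W K a hW hK ha ha0
    have h1 : W * K * a ≤ W * K * (ε / (3 * (W * K + 1))) :=
      mul_le_mul_of_nonneg_left ha.le (mul_nonneg hW hK)
    have h2 : W * K * (ε / (3 * (W * K + 1))) ≤ ε / 3 := by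
      have hWK : 0 ≤ W * K := mul_nonneg hW hK
      rw [mul_div_assoc', div_le_div_iff₀ (by positivity) (by norm_num)]
      nlinarith
    calc W * (K * a * ‖f‖) = (W * K * a) * ‖f‖ := by ring
      _ ≤ ε / 3 * ‖f‖ := mul_le_mul_of_nonneg_right (h1.trans h2) (norm_nonneg _)
  have k5 : ‖ω (L1 (M.right s f) - rF (c.i s) (L3 f))‖ ≤ ε / 3 * ‖f‖ := by
    refine (ω.le_opNorm _).trans ((mul_le_mul_of_nonneg_left k1 hω0).trans ?_)
    exact small ‖ω‖ C4 _ hω0 hC40 (he s hs) (norm_nonneg _)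
  have k6 : ‖ω' (L2 (M.left s f) - lF (c.i s) (L3 f))‖ ≤ ε / 3 * ‖f‖ := by
    refine (ω'.le_opNorm _).trans ((mul_le_mul_of_nonneg_left k2 hω'0).trans ?_)
    exact small ‖ω'‖ C5 _ hω'0 hC50 (hl s hs) (norm_nonneg _)
  have k7 : ω (L1 (M.right s f)) - ω' (L2 (M.left s f)) - D s f =
      ω (L1 (M.right s f) - rF (c.i s) (L3 f)) - ω' (L2 (M.left s f) - lF (c.i s) (L3 f)) +
        (ω (rF (c.i s) (L3 f)) - ω' (lF (c.i s) (L3 f)) - D s f) := by
    rw [map_sub, map_sub]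
    ring
  rw [k7]
  have k8 := norm_add_le (ω (L1 (M.right s f) - rF (c.i s) (L3 f)) -
    ω' (L2 (M.left s f) - lF (c.i s) (L3 f)))
    (ω (rF (c.i s) (L3 f)) - ω' (lF (c.i s) (L3 f)) - D s f)
  have k9 := norm_sub_le (ω (L1 (M.right s f) - rF (c.i s) (L3 f)))
    (ω' (L2 (M.left s f) - lF (c.i s) (L3 f)))
  linarith

theorem cpl_main (hA : ApproxSemiAmenable A) (c : Cpl A J) : ApproxSemiAmenable J := by
  intro X _ _ _ M D hD
  classical
  have h1 : ∀ i : Finset J × ℕ, ∃ Ξ H : X →L[ℂ] ℂ, ∀ s ∈ i.1,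
      ‖M.dual.left s Ξ - M.dual.right s H - D s‖ ≤ 1 / ((i.2 : ℝ) + 1) := fun i =>
    main_est hA c M D hD i.1 (by positivity)
  choose Ξ H hΞ using h1
  refine ⟨Finset J × ℕ, inferInstance, inferInstance, inferInstance, Ξ, H, fun s => ?_⟩
  rw [Metric.tendsto_atTop]
  intro ε hε
  obtain ⟨n, hn⟩ := exists_nat_one_div_lt hε
  refine ⟨({s}, n), fun i hi => ?_⟩
  rw [dist_eq_norm]
  have h3 : s ∈ i.1 := hi.1 (Finset.mem_singleton_self s)
  refine (hΞ i s h3).trans_lt (lt_of_le_of_lt ?_ hn)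
  have h4 : (n : ℝ) ≤ (i.2 : ℝ) := by exact_mod_cast hi.2
  exact one_div_le_one_div_of_le (by positivity) (by linarith)

end Pool.Agent.X179.ID
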