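import Pool.Agent.X179.SP.Defs

namespace Pool.Agent.X179.ID

open Filter Topology Pool.Agent.X179.SP

set_option synthInstance.maxHeartbeats 400000
set_option maxHeartbeats 4000000

variable {A : Type} [NonUnitalNormedRing A] [NormedSpace ℂ A] [IsScalarTower ℂ A A]
  [SMulCommClass ℂ A A]

/-- The dual of the universal bimodule of noncommutative differentials. -/
def XO (A : Type) [NonUnitalNormedRing A] [NormedSpace ℂ A] : Type :=
  (A →L[ℂ] ℂ) × (A →L[ℂ] A →L[ℂ] ℂ)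

noncomputable instance : NormedAddCommGroup (XO A) :=
  inferInstanceAs (NormedAddCommGroup ((A →L[ℂ] ℂ) × (A →L[ℂ] A →L[ℂ] ℂ)))
noncomputable instance : NormedSpace ℂ (XO A) :=
  inferInstanceAs (NormedSpace ℂ ((A →L[ℂ] ℂ) × (A →L[ℂ] A →L[ℂ] ℂ)))
instance : CompleteSpace (XO A) :=
  inferInstanceAs (CompleteSpace ((A →L[ℂ] ℂ) × (A →L[ℂ] A →L[ℂ] ℂ)))

/-- The pair. -/
def mkXO (α : A →L[ℂ] ℂ) (β : A →L[ℂ] A →L[ℂ] ℂ) : XO A := (α, β)

/-- Linear part as a function. -/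
noncomputable def p1 (f : XO A) (x : A) : ℂ := f.1 x

/-- Bilinear part as a function. -/
noncomputable def p2 (f : XO A) (x y : A) : ℂ := f.2 x y

lemma p1_mk (α : A →L[ℂ] ℂ) (β : A →L[ℂ] A →L[ℂ] ℂ) (x : A) : p1 (mkXO α β) x = α x := rfl
lemma p2_mk (α : A →L[ℂ] ℂ) (β : A →L[ℂ] A →L[ℂ] ℂ) (x y : A) : p2 (mkXO α β) x y = β x y := rfl
lemma p1_add (f g : XO A) (x : A) : p1 (f + g) x = p1 f x + p1 g x := rfl
lemma p2_add (f g : XO A) (x y : A) : p2 (f + g) x y = p2 f x y + p2 g x y := rfl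
lemma p1_smul (c : ℂ) (f : XO A) (x : A) : p1 (c • f) x = c * p1 f x := rfl
lemma p2_smul (c : ℂ) (f : XO A) (x y : A) : p2 (c • f) x y = c * p2 f x y := rfl
lemma p1_add' (f : XO A) (x x' : A) : p1 f (x + x') = p1 f x + p1 f x' := map_add f.1 x x'
lemma p1_smul' (f : XO A) (c : ℂ) (x : A) : p1 f (c • x) = c * p1 f x := map_smul f.1 c x
lemma p2_addl (f : XO A) (x x' y : A) : p2 f (x + x') y = p2 f x y + p2 f x' y := by
  unfold p2
  rw [map_add]
  rfl
lemma p2_smull (f : XO A) (c : ℂ) (x y : A) : p2 f (c • x) y = c * p2 f x y := by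
  unfold p2
  rw [map_smul]
  rfl
lemma p2_addr (f : XO A) (x y y' : A) : p2 f x (y + y') = p2 f x y + p2 f x y' :=
  map_add (f.2 x) y y'
lemma p2_smulr (f : XO A) (c : ℂ) (x y : A) : p2 f x (c • y) = c * p2 f x y :=
  map_smul (f.2 x) c y

noncomputable def rF (a : A) (f : XO A) : XO A :=
  mkXO (f.2 a) (f.2 ∘L (ContinuousLinearMap.mul ℂ A a))

noncomputable def lF (a : A) (f : XO A) : XO A :=
  mkXO (f.1 ∘L ((ContinuousLinearMap.mul ℂ A).flip a) - f.2.flip a)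
   (((ContinuousLinearMap.compL ℂ A A ℂ).flip ((ContinuousLinearMap.mul ℂ A).flip a)) ∘L f.2 -
    (ContinuousLinearMap.compL ℂ A A ℂ (f.2.flip a)) ∘L (ContinuousLinearMap.mul ℂ A))

lemma rF1 (a : A) (f : XO A) (x : A) : p1 (rF a f) x = p2 f a x := rfl
lemma rF2 (a : A) (f : XO A) (x y : A) : p2 (rF a f) x y = p2 f (a * x) y := rfl
lemma lF1 (a : A) (f : XO A) (x : A) : p1 (lF a f) x = p1 f (x * a) - p2 f x a := rfl
lemma lF2 (a : A) (f : XO A) (x y : A) :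
    p2 (lF a f) x y = p2 f x (y * a) - p2 f (x * y) a := rfl

lemma xo_ext {f g : XO A} (h1 : ∀ x, p1 f x = p1 g x) (h2 : ∀ x y, p2 f x y = p2 g x y) : f = g :=
  Prod.ext (ContinuousLinearMap.ext h1)
    (ContinuousLinearMap.ext fun x => ContinuousLinearMap.ext fun y => h2 x y)

lemma xo_norm {f : XO A} {C : ℝ} (hC : 0 ≤ C) (h1 : ∀ x, ‖p1 f x‖ ≤ C * ‖x‖)
    (h2 : ∀ x y, ‖p2 f x y‖ ≤ C * ‖x‖ * ‖y‖) : ‖f‖ ≤ C := by
  change max ‖f.1‖ ‖f.2‖ ≤ C
  exact max_le (ContinuousLinearMap.opNorm_le_bound _ hC h1)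
    (ContinuousLinearMap.opNorm_le_bound₂ _ hC h2)

lemma xo_n1 (f : XO A) : ‖(f.1 : A →L[ℂ] ℂ)‖ ≤ ‖f‖ :=
  norm_fst_le (f : (A →L[ℂ] ℂ) × (A →L[ℂ] A →L[ℂ] ℂ))

lemma xo_n2 (f : XO A) : ‖(f.2 : A →L[ℂ] A →L[ℂ] ℂ)‖ ≤ ‖f‖ :=
  norm_snd_le (f : (A →L[ℂ] ℂ) × (A →L[ℂ] A →L[ℂ] ℂ))

lemma xo1 (f : XO A) (x : A) : ‖p1 f x‖ ≤ ‖f‖ * ‖x‖ :=
  (f.1.le_opNorm x).trans (mul_le_mul_of_nonneg_right (xo_n1 f) (norm_nonneg _))

lemma xo2 (f : XO A) (x y : A) : ‖p2 f x y‖ ≤ ‖f‖ * ‖x‖ * ‖y‖ :=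
  (f.2.le_opNorm₂ x y).trans (mul_le_mul_of_nonneg_right
    (mul_le_mul_of_nonneg_right (xo_n2 f) (norm_nonneg _)) (norm_nonneg _))

lemma rF_norm (a : A) (f : XO A) : ‖rF a f‖ ≤ 2 * ‖a‖ * ‖f‖ := by
  refine xo_norm (by positivity) (fun x => ?_) (fun x y => ?_)
  · rw [rF1]
    have := xo2 f a x
    nlinarith [mul_nonneg (mul_nonneg (norm_nonneg f) (norm_nonneg a)) (norm_nonneg x)]
  · rw [rF2]
    have h1 := xo2 f (a * x) y
    have h2 : ‖f‖ * ‖a * x‖ * ‖y‖ ≤ ‖f‖ * (‖a‖ * ‖x‖) * ‖y‖ :=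
      mul_le_mul_of_nonneg_right (mul_le_mul_of_nonneg_left (norm_mul_le a x) (norm_nonneg _))
        (norm_nonneg _)
    nlinarith [mul_nonneg (mul_nonneg (mul_nonneg (norm_nonneg f) (norm_nonneg a))
      (norm_nonneg x)) (norm_nonneg y)]

lemma lF_norm (a : A) (f : XO A) : ‖lF a f‖ ≤ 2 * ‖a‖ * ‖f‖ := by
  refine xo_norm (by positivity) (fun x => ?_) (fun x y => ?_)
  · rw [lF1]
    have h1 := xo1 f (x * a)
    have h2 := xo2 f x a
    have h3 : ‖f‖ * ‖x * a‖ ≤ ‖f‖ * (‖x‖ * ‖a‖) :=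
      mul_le_mul_of_nonneg_left (norm_mul_le x a) (norm_nonneg _)
    refine (norm_sub_le _ _).trans ?_
    nlinarith
  · rw [lF2]
    have h1 := xo2 f x (y * a)
    have h2 := xo2 f (x * y) a
    have h3 : ‖f‖ * ‖x‖ * ‖y * a‖ ≤ ‖f‖ * ‖x‖ * (‖y‖ * ‖a‖) :=
      mul_le_mul_of_nonneg_left (norm_mul_le y a) (by positivity)
    have h4 : ‖f‖ * ‖x * y‖ * ‖a‖ ≤ ‖f‖ * (‖x‖ * ‖y‖) * ‖a‖ :=
      mul_le_mul_of_nonneg_right (mul_le_mul_of_nonneg_left (norm_mul_le x y) (norm_nonneg _))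
        (norm_nonneg _)
    refine (norm_sub_le _ _).trans ?_
    calc ‖p2 f x (y * a)‖ + ‖p2 f (x * y) a‖
        ≤ ‖f‖ * ‖x‖ * (‖y‖ * ‖a‖) + ‖f‖ * (‖x‖ * ‖y‖) * ‖a‖ := by linarith
      _ = 2 * ‖a‖ * ‖f‖ * ‖x‖ * ‖y‖ := by ring

noncomputable def rX : A →L[ℂ] XO A →L[ℂ] XO A :=
  LinearMap.mkContinuous₂ (LinearMap.mk₂ ℂ (rF : A → XO A → XO A)
    (fun a b f => xo_ext (fun x => by
      simp only [rF1, p1_add, p2_addl]) (fun x y => by
      simp only [rF2, p2_add, add_mul, p2_addl]))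
    (fun c a f => xo_ext (fun x => by
      simp only [rF1, p1_smul, p2_smull]) (fun x y => by
      simp only [rF2, p2_smul, smul_mul_assoc, p2_smull]))
    (fun a f g => xo_ext (fun x => by
      simp only [rF1, p1_add, p2_add]) (fun x y => by
      simp only [rF2, p2_add]))
    (fun c a f => xo_ext (fun x => by
      simp only [rF1, p1_smul, p2_smul]) (fun x y => by
      simp only [rF2, p2_smul]))) 2 rF_norm

noncomputable def lX : A →L[ℂ] XO A →L[ℂ] XO A :=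
  LinearMap.mkContinuous₂ (LinearMap.mk₂ ℂ (lF : A → XO A → XO A)
    (fun a b f => xo_ext (fun x => by
      simp only [lF1, p1_add, mul_add, p1_add', p2_addr]; ring) (fun x y => by
      simp only [lF2, p2_add, mul_add, p2_addr]; ring))
    (fun c a f => xo_ext (fun x => by
      simp only [lF1, p1_smul, mul_smul_comm, p1_smul', p2_smulr]; ring)
      (fun x y => by
      simp only [lF2, p2_smul, mul_smul_comm, p2_smulr]; ring))
    (fun a f g => xo_ext (fun x => by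
      simp only [lF1, p1_add, p2_add]; ring) (fun x y => by
      simp only [lF2, p2_add]; ring))
    (fun c a f => xo_ext (fun x => by
      simp only [lF1, p1_smul, p2_smul]; ring) (fun x y => by
      simp only [lF2, p2_smul]; ring))) 2 lF_norm

lemma rX_apply (a : A) (f : XO A) : rX a f = rF a f := rfl
lemma lX_apply (a : A) (f : XO A) : lX a f = lF a f := rfl

noncomputable def MO : Bimod A (XO A) where
  left := lX
  right := rX
  left_mul := by
    intro a b f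
    rw [lX_apply, lX_apply, lX_apply]
    refine xo_ext (fun x => ?_) (fun x y => ?_)
    · simp only [lF1, lF2, mul_assoc]
      ring
    · simp only [lF1, lF2, mul_assoc]
      ring
  right_mul := by
    intro a b f
    rw [rX_apply, rX_apply, rX_apply]
    refine xo_ext (fun x => ?_) (fun x y => ?_)
    · simp only [rF1, rF2]
    · simp only [rF1, rF2, mul_assoc]
  left_right := by
    intro a b f
    rw [lX_apply, rX_apply, lX_apply, rX_apply]
    refine xo_ext (fun x => ?_) (fun x y => ?_)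
    · simp only [rF1, rF2, lF1, lF2]
    · simp only [rF1, rF2, lF1, lF2, mul_assoc]

noncomputable def DO : A →L[ℂ] (XO A →L[ℂ] ℂ) :=
  LinearMap.mkContinuous₂ (LinearMap.mk₂ ℂ (fun (a : A) (f : XO A) => p1 f a)
    (fun a b f => p1_add' f a b)
    (fun c a f => p1_smul' f c a)
    (fun a f g => p1_add f g a)
    (fun c a f => p1_smul c f a))
    1 (fun a f => by
      rw [LinearMap.mk₂_apply, one_mul, mul_comm]
      exact xo1 f a)

lemma DO_apply (a : A) (f : XO A) : DO a f = p1 f a := rfl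

/-- The approximation property extracted from approximate semi-amenability. -/
theorem approx (hA : ApproxSemiAmenable A) (T : Finset A) (δ : ℝ) (hδ : 0 < δ) :
    ∃ ω ω' : XO A →L[ℂ] ℂ, ∀ s ∈ T, ∀ F : XO A, ‖ω (rF s F) - ω' (lF s F) - p1 F s‖ ≤ δ * ‖F‖ := by
  have hder : IsDerivation (MO : Bimod A (XO A)).dual DO := by
    intro a b
    refine ContinuousLinearMap.ext fun f => ?_
    rw [add_apply, dual_left, dual_right]
    change _ = DO b (rX a f) + DO a (lX b f)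
    rw [rX_apply, lX_apply]
    simp only [DO_apply, rF1, lF1]
    ring
  obtain ⟨ι, _, _, _, ξ, η, hlim⟩ := hA (XO A) MO DO hder
  have hev : ∀ᶠ i in (atTop : Filter ι), ∀ s ∈ T,
      ‖((MO : Bimod A (XO A)).dual.left s (ξ i) - (MO : Bimod A (XO A)).dual.right s (η i)) -
        DO s‖ < δ := by
    rw [Finset.eventually_all T]
    intro s _
    have h1 := (tendsto_iff_norm_sub_tendsto_zero.1 (hlim s))
    exact h1.eventually (gt_mem_nhds hδ)
  obtain ⟨i, hi⟩ := hev.exists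
  refine ⟨ξ i, η i, fun s hs F => ?_⟩
  have h1 := ContinuousLinearMap.le_opNorm (((MO : Bimod A (XO A)).dual.left s (ξ i) -
    (MO : Bimod A (XO A)).dual.right s (η i)) - DO s) F
  rw [sub_apply, sub_apply, dual_left, dual_right] at h1
  exact h1.trans (mul_le_mul_of_nonneg_right (hi s hs).le (norm_nonneg _))

end Pool.Agent.X179.ID
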